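import Pool.Agent.Helper84.OX.St

set_option autoImplicit false

namespace Pool.Agent.Helper5.OX

open Pool.Agent.Helper96.UT hiding StTOP TopV TopE tht Bd VC EC
open Pool.Agent.Helper96.GU Pool.Agent.Helper84.OX

variable {α : Type}

section con

variable {Ω : Type} [MulAction (FreeGroup α) Ω]

/-- The congruence of the proof. -/
private def con_STP (v : Ω) (E : Set (Ω × α)) : Con (FreeMonoid (α × Bool)) where
  r u w := (∀ q : List (α × Bool), InE E v (q ++ FreeMonoid.toList u) ↔
      InE E v (q ++ FreeMonoid.toList w)) ∧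
    ∀ q : List (α × Bool), InE E v (q ++ FreeMonoid.toList u) →
      act v (FreeGroup.mk (q ++ FreeMonoid.toList u)) = act v (FreeGroup.mk (q ++ FreeMonoid.toList w))
  iseqv := by
    refine ⟨fun u => ⟨fun q => Iff.rfl, fun q _ => rfl⟩, fun {u w} h => ⟨fun q => (h.1 q).symm,
      fun q hq => (h.2 q ((h.1 q).2 hq)).symm⟩, fun {u w x} h h' => ⟨fun q => (h.1 q).trans (h'.1 q),
      fun q hq => (h.2 q hq).trans (h'.2 q ((h.1 q).1 hq))⟩⟩
  mul' := by
    intro u w u' w' h h'
    have key : ∀ q : List (α × Bool), InE E v (q ++ (FreeMonoid.toList u ++ FreeMonoid.toList u')) →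
        InE E v (q ++ FreeMonoid.toList u) ∧ InE E v ((q ++ FreeMonoid.toList w) ++ FreeMonoid.toList u') ∧
        act v (FreeGroup.mk (q ++ (FreeMonoid.toList u ++ FreeMonoid.toList u'))) =
          act v (FreeGroup.mk ((q ++ FreeMonoid.toList w) ++ FreeMonoid.toList u')) := by
      intro q hq
      rw [← List.append_assoc, InE_append] at hq
      have h2 := h.2 q hq.1
      refine ⟨hq.1, ?_, ?_⟩
      · rw [InE_append, ← h2]
        exact ⟨(h.1 q).1 hq.1, hq.2⟩
      · rw [← List.append_assoc, mk_append (q ++ FreeMonoid.toList u), act_mul, h2,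
          mk_append (q ++ FreeMonoid.toList w), act_mul]
    have key' : ∀ q : List (α × Bool), InE E v ((q ++ FreeMonoid.toList w) ++ FreeMonoid.toList u') →
        InE E v (q ++ (FreeMonoid.toList u ++ FreeMonoid.toList u')) := by
      intro q hq
      rw [InE_append] at hq
      have h1 := (h.1 q).2 hq.1
      rw [← List.append_assoc, InE_append, h.2 q h1]
      exact ⟨h1, hq.2⟩
    refine ⟨fun q => ?_, fun q hq => ?_⟩
    · rw [FreeMonoid.toList_mul, FreeMonoid.toList_mul]
      constructor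
      · intro hq
        have h3 := (h'.1 _).1 (key q hq).2.1
        rwa [List.append_assoc] at h3
      · intro hq
        rw [← List.append_assoc] at hq
        exact key' q ((h'.1 _).2 hq)
    · rw [FreeMonoid.toList_mul] at hq ⊢
      rw [FreeMonoid.toList_mul]
      obtain ⟨_, h3, h4⟩ := key q hq
      rw [h4, h'.2 _ h3, List.append_assoc]

private theorem InE_rev_STP (E : Set (Ω × α)) (x : Ω) (w : List (α × Bool)) :
    InE E x (w ++ FreeGroup.invRev w) ↔ InE E x w := by
  rw [InE_append]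
  exact ⟨fun h => h.1, fun h => ⟨h, InE_invRev h⟩⟩

private theorem act_rev_STP (x : Ω) (w : List (α × Bool)) :
    act x (FreeGroup.mk (w ++ FreeGroup.invRev w)) = x := by
  rw [mk_append, mk_invRev, mul_inv_cancel, act_one]

private theorem con_le_STP (r : FreeMonoid (α × Bool)) (Z : Cyc α) (v : Ω) (E : Set (Ω × α))
    (hr : FreeMonoid.toList r = seg Z.c 0 Z.n)
    (hE : ∀ q : List (α × Bool), InE E v q → act (act v (FreeGroup.mk q)) Z.s = act v (FreeGroup.mk q) ∧
      InE E (act v (FreeGroup.mk q)) (seg Z.c 0 Z.n)) : conGen (Rel r) ≤ con_STP v E := by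
  refine Con.conGen_le.2 ?_
  rintro u w (⟨w, rfl, rfl⟩ | ⟨u, w, rfl, rfl⟩ | ⟨rfl, rfl⟩)
  · rename_i w
    rw [invRev_eq]
    have e : ∀ q : List (α × Bool), q ++ FreeMonoid.toList (w * FreeMonoid.ofList (FreeGroup.invRev
        (FreeMonoid.toList w)) * w) = q ++ ((FreeMonoid.toList w ++ FreeGroup.invRev (FreeMonoid.toList w)) ++
          FreeMonoid.toList w) := by
      intro q
      rw [FreeMonoid.toList_mul, FreeMonoid.toList_mul, FreeMonoid.toList_ofList]
    refine ⟨fun q => ?_, fun q _ => ?_⟩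
    · rw [e q, InE_append, InE_append E _ (FreeMonoid.toList w ++ _), act_rev_STP, InE_rev_STP, InE_append]
      exact ⟨fun h => ⟨h.1, h.2.1⟩, fun h => ⟨h.1, h.2, h.2⟩⟩
    · rw [e q, mk_append, act_mul, mk_append (FreeMonoid.toList w ++ _), act_mul, act_rev_STP, mk_append,
        act_mul]
  · rw [invRev_eq, invRev_eq]
    have e : ∀ (q : List (α × Bool)) (a b : FreeMonoid (α × Bool)), q ++ FreeMonoid.toList (a *
        FreeMonoid.ofList (FreeGroup.invRev (FreeMonoid.toList a)) * (b * FreeMonoid.ofList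
        (FreeGroup.invRev (FreeMonoid.toList b)))) = q ++ ((FreeMonoid.toList a ++ FreeGroup.invRev
        (FreeMonoid.toList a)) ++ (FreeMonoid.toList b ++ FreeGroup.invRev (FreeMonoid.toList b))) := by
      intro q a b
      rw [FreeMonoid.toList_mul, FreeMonoid.toList_mul, FreeMonoid.toList_mul, FreeMonoid.toList_ofList,
        FreeMonoid.toList_ofList]
    refine ⟨fun q => ?_, fun q _ => ?_⟩
    · rw [e q, e q, InE_append, InE_append E _ (FreeMonoid.toList u ++ _), act_rev_STP, InE_rev_STP,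
        InE_rev_STP, InE_append E v q, InE_append E _ (FreeMonoid.toList w ++ _), act_rev_STP, InE_rev_STP,
        InE_rev_STP]
      exact ⟨fun h => ⟨h.1, h.2.2, h.2.1⟩, fun h => ⟨h.1, h.2.2, h.2.1⟩⟩
    · rw [e q, e q, mk_append, act_mul, mk_append (FreeMonoid.toList u ++ _), act_mul, act_rev_STP,
        act_rev_STP, mk_append q, act_mul, mk_append (FreeMonoid.toList w ++ _), act_mul, act_rev_STP,
        act_rev_STP]
  · have e1 : FreeGroup.mk (FreeMonoid.toList u) = Z.s := by
      rw [hr, mk_seg_s]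
    refine ⟨fun q => ?_, fun q hq => ?_⟩
    · rw [FreeMonoid.toList_one, List.append_nil, InE_append, hr]
      exact ⟨fun h => h.1, fun h => ⟨h, (hE q h).2⟩⟩
    · rw [InE_append] at hq
      rw [FreeMonoid.toList_one, List.append_nil, mk_append, act_mul, e1]
      exact (hE q hq.1).1

end con

theorem hSTP : StSTP := by
  intro α r Z hr g hg
  set N : Subgroup (FreeGroup α) :=
    Subgroup.closure {x : FreeGroup α | ∃ l : List ℕ, x = ch Z l * Z.s * (ch Z l)⁻¹} with hN
  let v : FreeGroup α ⧸ N := ((1 : FreeGroup α) : FreeGroup α ⧸ N)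
  have hv : ∀ g h : FreeGroup α, act v g = act v h ↔ g * h⁻¹ ∈ N := act_coset_eq_EXZ N
  let E : Set ((FreeGroup α ⧸ N) × α) := {e | ∃ l : List ℕ, e ∈ CE Z (act v (ch Z l))}
  have hfix : ∀ l : List ℕ, act (act v (ch Z l)) Z.s = act v (ch Z l) := by
    intro l
    rw [← act_mul, hv]
    exact Subgroup.subset_closure ⟨l, rfl⟩
  -- positions of cells
  have hpos : ∀ (l : List ℕ) (k : ℤ), ∃ l' : List ℕ, act (act v (ch Z l)) (pre Z.c k) = act v (ch Z l') := by
    intro l k
    obtain ⟨i, a, _, rfl⟩ := mod_nat Z k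
    refine ⟨l ++ [i], ?_⟩
    rw [act_pre_per (hfix l), ch_concat, act_mul]
  -- (1)
  have h1 : ∀ q : List (α × Bool), InE E v q → ∃ l : List ℕ, act v (FreeGroup.mk q) = act v (ch Z l) := by
    intro q hq
    rcases List.eq_nil_or_concat q with rfl | ⟨q', x, rfl⟩
    · exact ⟨[], rfl⟩
    · rw [List.concat_eq_append] at hq ⊢
      rw [InE_append] at hq
      obtain ⟨l, j, hj⟩ := hq.2.1
      have e : act v (FreeGroup.mk (q' ++ [x])) = act (act v (FreeGroup.mk q')) (lt x) := by
        rw [mk_append, act_mul]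
        rfl
      rw [e]
      rcases ed_eq hj with ⟨h2, h3⟩ | ⟨h2, h3⟩
      · obtain ⟨l', hl'⟩ := hpos l (j + 1)
        refine ⟨l', ?_⟩
        rw [← hl', ← act_pre_succ, h2, h3]
      · obtain ⟨l', hl'⟩ := hpos l j
        exact ⟨l', by rw [← hl', h2]⟩
  have h2 : ∀ q : List (α × Bool), InE E v q →
      act (act v (FreeGroup.mk q)) Z.s = act v (FreeGroup.mk q) ∧
      InE E (act v (FreeGroup.mk q)) (seg Z.c 0 Z.n) := by
    intro q hq
    obtain ⟨l, hl⟩ := h1 q hq
    rw [hl]
    refine ⟨hfix l, ?_⟩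
    have h3 := InE_cell Z (act v (ch Z l)) 0 Z.n
    rw [pre_zero, act_one] at h3
    have h4 : CE Z (act v (ch Z l)) ⊆ E := fun e he => ⟨l, he⟩
    exact InE_mono h4 h3
  obtain ⟨w, rfl, hw⟩ := fVNT α r Z hr g hg
  have hrel : conGen (Rel r) (FreeMonoid.ofList w) (FreeMonoid.ofList []) := (Con.eq _).1 hw
  have h3 := con_le_STP r Z v E hr h2 hrel
  have h4 : InE E v ([] ++ FreeMonoid.toList (FreeMonoid.ofList w)) := by
    rw [h3.1 []]
    trivial
  have h5 := h3.2 [] h4
  rw [FreeMonoid.toList_ofList, FreeMonoid.toList_ofList, List.nil_append, List.nil_append] at h5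
  have h6 := (hv _ _).1 h5
  have e : FreeGroup.mk ([] : List (α × Bool)) = 1 := rfl
  rwa [e, inv_one, mul_one] at h6

end Pool.Agent.Helper5.OX
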